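import Pool.Agent.H66.ER2.Targets
import Pool.Agent.H66.ER2.Lib

/-!
# MP_816b90_co: row GC3 of board er2_modules
-/

set_option autoImplicit false
set_option linter.unusedVariables false

open Pool.Agent.H48.ER Pool.Agent.H52.ER2 Pool.Agent.H66.ER2

namespace Pool.Agent.H41.ER2

theorem pf_GC3 (hCON : T_CON) (hEVN : T_EVN) (hASL : T_ASL) (hGMJ : T_GMJ) (hOUE : T_OUE)
    (hG3A : T_G3A) : T_GC3 := by
  intro V G v k z l r n m a1 x b1 y y' a2 b2 a3 b3 L R P Q R' h
  have hg := h.g
  have hsp := hg.sp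
  have hnoh : NOH G := hg.cls.noh
  have hnop : NOP G := hg.cls.nop
  obtain ⟨hke, hk4⟩ := hOUE V G v k z hnoh hg.f1 hg.so.toOu
  obtain ⟨hz1, hz1a⟩ := hG3A V G v k z l r n m a1 x b1 y y' a2 b2 a3 b3 L R P Q R' h
  obtain ⟨_, htb⟩ := hGMJ V G v k z l r n m a1 x b1 y a2 b2 a3 b3 L R P Q hg
  have hpf : PF G k z := hg.so.pf
  have hint := hg.so.int
  have ha2P : a2 ∈ P := hsp.a2_mem
  have ha3Q : a3 ∈ Q := hsp.a3_mem
  have hva2 : G.Adj v a2 := h.h2.1
  have hva3 : G.Adj v a3 := h.h3.1
  have hab : a2 ≠ b2 := hsp.ipP.ne hsp.oP.pos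
  have hR'R : R' ⊆ R := by rw [h.hR']; exact Set.subset_insert _ _
  have hRPQ : ∀ u ∈ R, u ∉ P ∪ Q := by
    rintro u hu (hw | hw)
    · exact Set.disjoint_left.1 hsp.dRP hu hw
    · exact Set.disjoint_left.1 hsp.dRQ hu hw
  -- `z j` is not in `P ∪ Q` as long as no earlier vertex sees `P ∪ Q`
  have hout : ∀ i, (∀ j, 2 ≤ j → j < i → ∀ w ∈ P ∪ Q, ¬ G.Adj (z j) w) →
      ∀ j, 1 ≤ j → j ≤ i → j < k → z j ∉ P ∪ Q := by
    intro i hi j hj1 hji hjk hmem
    rcases Nat.lt_or_ge 1 j with hj | hj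
    · have hadj : G.Adj (z (j - 1)) (z j) := by
        rw [hpf.adj _ _ (by omega) (by omega)]; omega
      rcases Nat.lt_or_ge 2 j with hj2 | hj2
      · exact hi (j - 1) (by omega) (by omega) _ hmem hadj
      · have e : j = 2 := by omega
        subst e
        rcases (hz1a _ hmem).1 hadj with e | e
        · exact (hint 2 (by omega) hjk).2 (e ▸ hva2)
        · exact (hint 2 (by omega) hjk).2 (e ▸ hva3)
    · have e : j = 1 := by omega
      subst e
      exact hz1 hmem
  by_cases hex : ∃ j, 2 ≤ j ∧ j < k ∧ ∃ w ∈ P ∪ Q, G.Adj (z j) w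
  · -- second case
    classical
    obtain ⟨hi2, hik, hsee⟩ := Nat.find_spec hex
    have hmin : ∀ j, j < Nat.find hex → ¬ (2 ≤ j ∧ j < k ∧ ∃ w ∈ P ∪ Q, G.Adj (z j) w) :=
      fun j hj => Nat.find_min hex hj
    generalize Nat.find hex = i at hi2 hik hsee hmin
    have hno : ∀ j, 2 ≤ j → j < i → ∀ w ∈ P ∪ Q, ¬ G.Adj (z j) w :=
      fun j h1 h2 w hw e => hmin j h2 ⟨h1, by omega, w, hw, e⟩
    have hnm := hout i hno
    have hA : ACx G (i - 1) n m (z 1) (z i) a2 b2 a3 b3 (seg z 1 i) P Q := by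
      refine ⟨hsp.cyc, hpf.seg (by omega) (by omega), by omega, ?_, ?_, ?_, ?_, hsee⟩
      · rw [Set.disjoint_left]
        rintro u ⟨j, h1, h2, rfl⟩ hu
        exact hnm j h1 h2 (by omega) hu
      · exact (hz1a a2 (Or.inl ha2P)).2 (Or.inl rfl)
      · exact (hz1a a3 (Or.inr ha3Q)).2 (Or.inr rfl)
      · rintro u ⟨j, h1, h2, rfl⟩ hne w hw e
        rcases Nat.lt_or_ge 1 j with hj | hj
        · have hji : j < i := by
            rcases Nat.lt_or_ge j i with h' | h'
            · exact h'
            · exact absurd (by rw [show j = i by omega]) hne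
          exact absurd e (hno j hj hji w hw)
        · have e1 : j = 1 := by omega
          subst e1
          exact ⟨rfl, (hz1a w hw).1 e⟩
    have hV : VCx G v (z 1) (z i) a2 b2 a3 b3 (seg z 1 i) P Q := by
      refine ⟨hg.nco, ?_, ?_, (hint i (by omega) hik).2, Or.inr (Or.inr ⟨hva2, hva3⟩), ?_, ?_⟩
      · rintro ⟨j, h1, h2, e⟩
        exact (hint j (by omega) (by omega)).1 e
      · intro hv
        apply hg.nv
        rcases hv with hv | hv
        · exact Or.inl (Or.inr hv)
        · exact Or.inr hv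
      · rcases htb with ht | ht | ht
        · exact Or.inl ht.2
        · exact Or.inr ht.2
        · exact Or.inl ht.1
      · rintro w (rfl | hw) hvw e
        · exact (hint 1 (by omega) (by omega)).2 hvw
        · have hwS : w ∈ vS L R P Q := by
            rcases hw with hw | hw
            · exact Or.inl (Or.inr hw)
            · exact Or.inr hw
          by_cases hwA : w ∈ sA G v k z
          · exact hwA.2.2 i (by omega) hik e.symm
          · by_cases hwB : w ∈ sB G v k z
            · rcases h.onB w hwS hwB with rfl | rfl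
              · exact hRPQ _ hsp.y_mem hw
              · exact hRPQ _ (hR'R h.ipR'.right_mem) hw
            · exact hg.t0 w hwS hvw hwA hwB (z i) ⟨i, by omega, hik, rfl⟩ e.symm
    rcases hASL V G (i - 1) n m (z 1) (z i) a2 b2 a3 b3 v (seg z 1 i) P Q hnoh hnop hA hV with
      hr | hr
    · exact h.h2.2.2 i (by omega) hik ((hr a2 (Or.inl ha2P)).2 rfl).symm
    · exact h.h3.2.2 i (by omega) hik ((hr a3 (Or.inr ha3Q)).2 rfl).symm
  · -- first case
    have hno : ∀ j, 2 ≤ j → j < k → ∀ w ∈ P ∪ Q, ¬ G.Adj (z j) w :=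
      fun j h1 h2 w hw e => hex ⟨j, h1, h2, w, hw, e⟩
    have hnm : ∀ j, 1 ≤ j → j < k → z j ∉ P ∪ Q := fun j h1 h2 =>
      hout k hno j h1 (by omega) h2
    have hz1R : z 1 ∉ R := fun hz => hab
      ((hsp.eRP _ hz _ ha2P).1 ((hz1a a2 (Or.inl ha2P)).2 (Or.inl rfl))).2
    have hy'z : G.Adj y' (z (k - 1)) := h.hy'.2.1
    -- the connected set
    have hcn : Cn G (seg z 1 (k - 1) ∪ R') := by
      intro X hXD hXne hX
      -- `z (k-1) ∈ X`
      have hzstep : ∀ j, 1 ≤ j → j + 1 ≤ k - 1 → (z j ∈ X ↔ z (j + 1) ∈ X) := by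
        intro j h1 h2
        constructor
        · intro hj
          exact hX _ hj _ (Or.inl ⟨j + 1, by omega, h2, rfl⟩)
            ((hpf.adj _ _ (by omega) (by omega)).2 (Or.inl rfl))
        · intro hj
          exact hX _ hj _ (Or.inl ⟨j, by omega, by omega, rfl⟩)
            ((hpf.adj _ _ (by omega) (by omega)).2 (Or.inr rfl))
      have hzall : ∀ j, 1 ≤ j → j ≤ k - 1 → (z j ∈ X ↔ z 1 ∈ X) := by
        intro j h1
        induction j, h1 using Nat.le_induction with
        | base => intro _; exact Iff.rfl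
        | succ j h1 ih =>
          intro h2
          rw [← hzstep j h1 h2]
          exact ih (by omega)
      obtain ⟨g, hpg, g0, gn, hRg⟩ := IP.pf h.ipR'
      have hgstep : ∀ j, j + 1 ≤ r - 1 → (g j ∈ X ↔ g (j + 1) ∈ X) := by
        intro j h2
        constructor
        · intro hj
          refine hX _ hj _ (Or.inr ?_) ((hpg.adj _ _ (by omega) (by omega)).2 (Or.inl rfl))
          rw [hRg]; exact mem_seg (by omega) h2
        · intro hj
          refine hX _ hj _ (Or.inr ?_) ((hpg.adj _ _ (by omega) (by omega)).2 (Or.inr rfl))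
          rw [hRg]; exact mem_seg (by omega) (by omega)
      have hgall : ∀ j, j ≤ r - 1 → (g j ∈ X ↔ g 0 ∈ X) := by
        intro j
        induction j with
        | zero => intro _; exact Iff.rfl
        | succ j ih =>
          intro h2
          rw [← hgstep j h2]
          exact ih (by omega)
      have hlink : z (k - 1) ∈ X ↔ g (r - 1) ∈ X := by
        rw [gn]
        constructor
        · intro hj
          exact hX _ hj _ (Or.inr h.ipR'.right_mem) hy'z.symm
        · intro hj
          exact hX _ hj _ (Or.inl ⟨k - 1, by omega, le_rfl, rfl⟩) hy'z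
      have hall : ∀ w ∈ seg z 1 (k - 1) ∪ R', (w ∈ X ↔ z 1 ∈ X) := by
        rintro w (⟨j, h1, h2, rfl⟩ | hw)
        · exact hzall j h1 h2
        · rw [hRg] at hw
          obtain ⟨j, _, h2, rfl⟩ := hw
          rw [hgall j h2, ← hgall (r - 1) le_rfl, ← hlink]
          exact hzall (k - 1) (by omega) le_rfl
      obtain ⟨u, hu⟩ := hXne
      have hz1X : z 1 ∈ X := (hall u (hXD hu)).1 hu
      exact Set.Subset.antisymm hXD fun w hw => (hall w hw).2 hz1X
    have hb1R' : b1 ∈ R' := h.ipR'.left_mem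
    obtain ⟨q, T, hT, hTD⟩ := hCON V G (seg z 1 (k - 1) ∪ R') (z 1) b1 hcn
      (Or.inl ⟨1, le_rfl, by omega, rfl⟩) (Or.inr hb1R')
    have hz1b1 : z 1 ≠ b1 := fun e => hz1R (e ▸ hR'R hb1R')
    have hTdis : ∀ u ∈ T, u ∉ P ∪ Q := by
      intro u hu
      rcases hTD hu with ⟨j, h1, h2, rfl⟩ | hu'
      · exact hnm j h1 (by omega)
      · exact hRPQ u (hR'R hu')
    have hq : 1 ≤ q := by
      rcases Nat.eq_zero_or_pos q with e | e
      · subst e
        exact absurd hT.eq_of_zero.1 hz1b1
      · exact e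
    -- adjacency between `T` and `P ∪ Q`
    have hadj : ∀ u ∈ T, ∀ w ∈ P ∪ Q, G.Adj u w ↔
        (u = z 1 ∧ (w = a2 ∨ w = a3)) ∨ (u = b1 ∧ (w = b2 ∨ w = b3)) := by
      intro u hu w hw
      by_cases huz : u = z 1
      · subst huz
        rw [hz1a w hw]
        constructor
        · exact fun e => Or.inl ⟨rfl, e⟩
        · rintro (⟨_, e⟩ | ⟨e, _⟩)
          · exact e
          · exact absurd e hz1b1
      · by_cases huR : u ∈ R
        · constructor
          · intro e
            rcases hw with hw | hw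
            · obtain ⟨e1, e2⟩ := (hsp.eRP u huR w hw).1 e
              exact Or.inr ⟨e1, Or.inl e2⟩
            · obtain ⟨e1, e2⟩ := (hsp.eRQ u huR w hw).1 e
              exact Or.inr ⟨e1, Or.inr e2⟩
          · rintro (⟨e, _⟩ | ⟨e1, e2 | e2⟩)
            · exact absurd e huz
            · subst e2
              exact (hsp.eRP u huR w hsp.b2_mem).2 ⟨e1, rfl⟩
            · subst e2
              exact (hsp.eRQ u huR w hsp.b3_mem).2 ⟨e1, rfl⟩
        · constructor
          · intro e
            rcases hTD hu with ⟨j, h1, h2, rfl⟩ | hu'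
            · rcases Nat.lt_or_ge 1 j with hj | hj
              · exact absurd e (hno j hj (by omega) w hw)
              · exact absurd (by rw [show j = 1 by omega]) huz
            · exact absurd (hR'R hu') huR
          · rintro (⟨e, _⟩ | ⟨e, _⟩)
            · exact absurd e huz
            · exact absurd (e ▸ hR'R hb1R') huR
    have hPr : Prism G ![z 1, a2, a3] ![b1, b2, b3] ![q, n, m] ![T, P, Q] := by
      refine mk3 hT hsp.ipP hsp.ipQ hq hsp.oP.pos hsp.oQ.pos ?_ ?_ hsp.dPQ ?_ ?_ hsp.ePQ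
      · rw [Set.disjoint_left]
        exact fun u hu hw => hTdis u hu (Or.inl hw)
      · rw [Set.disjoint_left]
        exact fun u hu hw => hTdis u hu (Or.inr hw)
      · intro u hu w hw
        rw [hadj u hu w (Or.inl hw)]
        have n1 : w ≠ a3 := fun e => Set.disjoint_left.1 hsp.dPQ hw (e ▸ ha3Q)
        have n2 : w ≠ b3 := fun e => Set.disjoint_left.1 hsp.dPQ hw (e ▸ hsp.b3_mem)
        simp only [n1, n2, or_false]
      · intro u hu w hw
        rw [hadj u hu w (Or.inr hw)]
        have n1 : w ≠ a2 := fun e => Set.disjoint_left.1 hsp.dPQ (e ▸ ha2P) hw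
        have n2 : w ≠ b2 := fun e => Set.disjoint_left.1 hsp.dPQ (e ▸ hsp.b2_mem) hw
        simp only [n1, n2, false_or]
    have hev := (hEVN V G _ _ _ _ hnoh hPr).2 hnop 1
    have hev' : Even n := hev
    exact (Nat.not_even_iff_odd.2 hsp.oP) hev'

end Pool.Agent.H41.ER2
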